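import Mathlib
import Pool.Agent.H64Z.Ext.Defs
import Pool.Agent.H64Z.Ext.Neg

namespace Pool.Agent.Results.MP_a74b27_gt.AImageNotExtendial

open Pool.Agent.H64Z.Ext

/-- There is an extendial compact Hausdorff space with a compact Hausdorff continuous image that is
not t-extendial. -/
theorem result : ∃ (X Y : Type) (_ : TopologicalSpace X) (_ : TopologicalSpace Y),
    CompactSpace X ∧ T2Space X ∧ CompactSpace Y ∧ T2Space Y ∧
      (∃ f : X → Y, Continuous f ∧ Function.Surjective f) ∧ Extendial X ∧ ¬ TExtendial Y :=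
  Pool.Agent.H64Z.Ext.main

end Pool.Agent.Results.MP_a74b27_gt.AImageNotExtendial
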